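import Pool.Agent.W610.HY.Stm3

set_option autoImplicit false

namespace Pool.Agent.W637.HY.NZM

open MeasureTheory Set Metric Filter Topology
open Pool.Agent.W610.HY

lemma dist_low (c l : ℂ) (r θ : ℝ) (hr : 0 < r) : r - ‖l - c‖ ≤ ‖circleMap c r θ - l‖ := by
  have h1 : ‖circleMap c r θ - c‖ = r := by
    simp [circleMap, abs_of_pos hr]
  have h2 : circleMap c r θ - c = (circleMap c r θ - l) + (l - c) := by ring
  have h3 := norm_add_le (circleMap c r θ - l) (l - c)
  rw [← h2, h1] at h3
  linarith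

lemma integrable_cauchy {E : Type} [NormedAddCommGroup E] [NormedSpace ℂ E]
    (μ : Measure ℝ) (c l : ℂ) (r : ℝ) (hr : 0 < r) (hl : l ∈ ball c r) (k : ℝ → E)
    (hk : Integrable k μ) : Integrable (fun θ => (circleMap c r θ - l)⁻¹ • k θ) μ := by
  have hρ : 0 < r - ‖l - c‖ := by
    rw [mem_ball, dist_eq_norm] at hl; linarith
  have hm : AEStronglyMeasurable (fun θ => (circleMap c r θ - l)⁻¹ • k θ) μ := by
    have h1 : Measurable (fun θ => (circleMap c r θ - l)⁻¹) :=
      ((continuous_circleMap c r).measurable.sub_const l).inv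
    exact h1.aestronglyMeasurable.smul hk.1
  refine Integrable.mono' (hk.norm.const_mul ((r - ‖l - c‖)⁻¹)) hm ?_
  refine Filter.Eventually.of_forall fun θ => ?_
  rw [norm_smul, norm_inv]
  exact mul_le_mul_of_nonneg_right (inv_anti₀ hρ (dist_low c l r θ hr)) (norm_nonneg _)

lemma diff_cauchy {E : Type} [NormedAddCommGroup E] [NormedSpace ℂ E] [CompleteSpace E]
    (μ : Measure ℝ) (c : ℂ) (r : ℝ) (hr : 0 < r) (k : ℝ → E)
    (hk : Integrable k μ) :
    DifferentiableOn ℂ (fun l : ℂ => ∫ θ, (circleMap c r θ - l)⁻¹ • k θ ∂μ) (ball c r) := by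
  intro l₀ hl₀
  apply DifferentiableAt.differentiableWithinAt
  have hρ : 0 < r - ‖l₀ - c‖ := by
    rw [mem_ball, dist_eq_norm] at hl₀; linarith
  set ρ := r - ‖l₀ - c‖ with hρdef
  have hlow : ∀ l ∈ ball l₀ (ρ / 2), ∀ θ, ρ / 2 ≤ ‖circleMap c r θ - l‖ := by
    intro l hl θ
    have h1 := dist_low c l r θ hr
    rw [mem_ball, dist_eq_norm] at hl
    have h2 : ‖l - c‖ ≤ ‖l - l₀‖ + ‖l₀ - c‖ := by
      have : l - c = (l - l₀) + (l₀ - c) := by ring
      rw [this]; exact norm_add_le _ _
    linarith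
  have hmz : Measurable (fun θ => circleMap c r θ) := (continuous_circleMap c r).measurable
  have key := hasDerivAt_integral_of_dominated_loc_of_deriv_le (𝕜 := ℂ) (μ := μ)
    (F := fun (l : ℂ) (θ : ℝ) => (circleMap c r θ - l)⁻¹ • k θ)
    (F' := fun (l : ℂ) (θ : ℝ) => (((circleMap c r θ - l) ^ 2)⁻¹) • k θ)
    (x₀ := l₀) (s := ball l₀ (ρ / 2)) (bound := fun θ => (((ρ / 2) ^ 2)⁻¹) * ‖k θ‖)
    (ball_mem_nhds l₀ (by positivity))
    (Filter.Eventually.of_forall fun l =>
      ((hmz.sub_const l).inv).aestronglyMeasurable.smul hk.1)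
    (integrable_cauchy μ c l₀ r hr hl₀ k hk)
    ((((hmz.sub_const l₀).pow_const 2).inv).aestronglyMeasurable.smul hk.1)
    (Filter.Eventually.of_forall fun θ l hl => by
      rw [norm_smul, norm_inv, norm_pow]
      refine mul_le_mul_of_nonneg_right (inv_anti₀ (by positivity) ?_) (norm_nonneg _)
      exact pow_le_pow_left₀ (by positivity) (hlow l hl θ) 2)
    (hk.norm.const_mul _)
    (Filter.Eventually.of_forall fun θ l hl => by
      have hne : circleMap c r θ - l ≠ 0 := by
        intro h0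
        have := hlow l hl θ
        rw [h0, norm_zero] at this
        linarith
      have h1 : HasDerivAt (fun l : ℂ => circleMap c r θ - l) (-1) l := by
        simpa using (hasDerivAt_id l).const_sub (circleMap c r θ)
      have h2 := h1.inv hne
      have h3 : -(-1 : ℂ) / (circleMap c r θ - l) ^ 2 = ((circleMap c r θ - l) ^ 2)⁻¹ := by
        rw [neg_neg, one_div]
      rw [h3] at h2
      exact h2.smul_const (k θ))
  exact key.2.differentiableAt

theorem main : NZM := by
  intro E _ _ _ T x P f c r h hf hP hG hIV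
  obtain ⟨hr, hmeas, hres, hle, hbd, hne, -⟩ := hG
  set μ : Measure ℝ := volume.restrict (Ioc (0:ℝ) (2 * Real.pi)) with hμ
  have h2pi : (0:ℝ) ≤ 2 * Real.pi := by positivity
  have hmz : Measurable (fun θ => circleMap c r θ) := (continuous_circleMap c r).measurable
  have hmu : Measurable (fun θ => circleMap 0 1 θ) := (continuous_circleMap 0 1).measurable
  have hu1 : ∀ θ, ‖circleMap 0 1 θ‖ = 1 := by intro θ; simp [circleMap]
  have hk1 : Integrable (fun θ => h θ * circleMap 0 1 θ) μ := by
    refine Integrable.of_bound (hmeas.mul hmu).aestronglyMeasurable 1 ?_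
    filter_upwards [hle] with θ hθ
    rw [norm_mul, hu1, mul_one]; exact hθ
  have hfz : StronglyMeasurable (fun θ => f (circleMap c r θ)) := hf.comp_measurable hmz
  have hk2 : Integrable (fun θ => (h θ * circleMap 0 1 θ) • f (circleMap c r θ)) μ := by
    refine Integrable.of_bound
      ((hmeas.mul hmu).aestronglyMeasurable.smul hfz.aestronglyMeasurable) 1 ?_
    filter_upwards [hbd] with θ hθ
    rw [norm_smul, norm_mul, hu1, mul_one]; exact hθ
  have hIV' : ∫ θ, (h θ * circleMap 0 1 θ) • f (circleMap c r θ) ∂μ = 0 := by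
    rw [← hIV, IV, intervalIntegral.integral_of_le h2pi]
  have hne' : ∫ θ, h θ ∂μ ≠ 0 := by
    rw [intervalIntegral.integral_of_le h2pi] at hne; exact hne
  let Φ : ℂ → E := fun l => ∫ θ, (circleMap c r θ - l)⁻¹ •
    ((h θ * circleMap 0 1 θ) • f (circleMap c r θ)) ∂μ
  let I : ℂ → ℂ := fun l => ∫ θ, (circleMap c r θ - l)⁻¹ • (h θ * circleMap 0 1 θ) ∂μ
  have hΦ : DifferentiableOn ℂ Φ (ball c r) := diff_cauchy μ c r hr _ hk2
  have hI : DifferentiableOn ℂ I (ball c r) := diff_cauchy μ c r hr _ hk1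
  have heq : ∀ l ∈ ball c r, l • Φ l - T (Φ l) = I l • x := by
    intro l hl
    have hi2 := integrable_cauchy μ c l r hr hl _ hk2
    have hi1 := integrable_cauchy μ c l r hr hl _ hk1
    have e1 : T (Φ l) = ∫ θ, T ((circleMap c r θ - l)⁻¹ •
      ((h θ * circleMap 0 1 θ) • f (circleMap c r θ))) ∂μ :=
      (ContinuousLinearMap.integral_comp_comm T hi2).symm
    have e2 : l • Φ l = ∫ θ, l • ((circleMap c r θ - l)⁻¹ •
      ((h θ * circleMap 0 1 θ) • f (circleMap c r θ))) ∂μ := (integral_smul _ _).symm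
    have e3 : I l • x = ∫ θ, ((circleMap c r θ - l)⁻¹ • (h θ * circleMap 0 1 θ)) • x ∂μ :=
      (integral_smul_const _ _).symm
    have i1 : Integrable (fun θ => l • ((circleMap c r θ - l)⁻¹ •
      ((h θ * circleMap 0 1 θ) • f (circleMap c r θ)))) μ := hi2.smul l
    have i2 : Integrable (fun θ => T ((circleMap c r θ - l)⁻¹ •
      ((h θ * circleMap 0 1 θ) • f (circleMap c r θ)))) μ := T.integrable_comp hi2
    have i3 : Integrable (fun θ => ((circleMap c r θ - l)⁻¹ •
      (h θ * circleMap 0 1 θ)) • x) μ := hi1.smul_const x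
    rw [e1, e2, e3, ← integral_sub i1 i2,
      ← sub_zero (∫ θ, ((circleMap c r θ - l)⁻¹ • (h θ * circleMap 0 1 θ)) • x ∂μ), ← hIV',
      ← integral_sub i3 hk2]
    apply integral_congr_ae
    filter_upwards [hres] with θ hθ
    have h1 := hP _ hθ
    have hz : circleMap c r θ - l ≠ 0 := by
      intro h0
      have := dist_low c l r θ hr
      rw [h0, norm_zero] at this
      rw [mem_ball, dist_eq_norm] at hl
      linarith
    have h2 : T (f (circleMap c r θ)) = circleMap c r θ • f (circleMap c r θ) - x := by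
      rw [← h1]; abel
    rw [map_smul, map_smul, h2]
    generalize f (circleMap c r θ) = y
    generalize h θ * circleMap 0 1 θ = a
    generalize circleMap c r θ = z at hz ⊢
    have e4 : a • y = (z - l)⁻¹ • a • ((z - l) • y) := by
      rw [smul_comm a (z - l) y, inv_smul_smul₀ hz]
    conv_rhs => rw [e4]
    simp only [smul_sub, sub_smul, smul_smul, smul_eq_mul]
    have e5 : l * ((z - l)⁻¹ * a) = (z - l)⁻¹ * (a * l) := by ring
    rw [e5]
    abel
  have hIc : I c ≠ 0 := by
    have : I c = (r : ℂ)⁻¹ * ∫ θ, h θ ∂μ := by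
      rw [← integral_const_mul]
      apply integral_congr_ae
      refine Filter.Eventually.of_forall fun θ => ?_
      have hu0 : circleMap 0 1 θ ≠ 0 := by
        intro h0; have := hu1 θ; rw [h0, norm_zero] at this; exact zero_ne_one this
      have hzc : circleMap c r θ - c = r * circleMap 0 1 θ := by
        simp [circleMap]
      simp only [hzc, smul_eq_mul]
      field_simp
    rw [this]
    exact mul_ne_zero (inv_ne_zero (by exact_mod_cast hr.ne')) hne'
  have hcont : ContinuousAt I c :=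
    (hI.differentiableAt (ball_mem_nhds c hr)).continuousAt
  have hev : ∀ᶠ l in 𝓝 c, I l ≠ 0 := hcont.eventually_ne hIc
  obtain ⟨δ₀, hδ₀, hδ⟩ := Metric.eventually_nhds_iff_ball.mp hev
  refine ⟨min δ₀ r, fun l => (I l)⁻¹ • Φ l, lt_min hδ₀ hr, ?_, ?_⟩
  · intro l hl
    have hl1 : l ∈ ball c δ₀ := ball_subset_ball (min_le_left _ _) hl
    have hsub : ball c (min δ₀ r) ⊆ ball c r := ball_subset_ball (min_le_right _ _)
    exact ((hI.mono hsub l hl).inv (hδ l hl1)).smul (hΦ.mono hsub l hl)
  · intro l hl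
    have hl1 : l ∈ ball c δ₀ := ball_subset_ball (min_le_left _ _) hl
    have hl2 : l ∈ ball c r := ball_subset_ball (min_le_right _ _) hl
    have h1 := heq l hl2
    simp only [map_smul]
    rw [smul_comm l, ← smul_sub, h1, inv_smul_smul₀ (hδ l hl1)]

end Pool.Agent.W637.HY.NZM
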